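import Mathlib
import Pool.Agent.Q288.ZRP.Final

/-! # Explosion of zero-range processes of finite asymptotic density in dimension at least two -/

set_option autoImplicit false

namespace Pool.Agent.Results.MP_773c46_pr.Explosion

open MeasureTheory Filter Topology Q288.ZRP Q288.Jump

/-- For every `d ≥ 2` and every coordinate direction `i0`, let the jumps be the totally asymmetric
nearest-neighbour ones (always the step `-e`, `e` the unit vector of the direction `i0`). There are
a nondecreasing rate function `g` with `g 0 = 0` and `g → ∞` and a configuration `η` of finite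
asymptotic density such that for almost every time `t > 0`: the number of particles at the origin
at time `t` of the process started from the restriction of `η` to `[-n, n]^d` tends to infinity in
probability, and, whenever the processes started from these restrictions are realised monotonically
on one probability space, almost surely their limit has infinitely many particles at the origin at
time `t`. -/
theorem result (d : ℕ) (hd : 2 ≤ d) (i0 : Fin d) :
    ∃ g : ℕ → ℝ, g 0 = 0 ∧ Monotone g ∧ Tendsto g atTop atTop ∧
      ∃ η : Site d → ℕ, FiniteDensity η ∧ ∀ᵐ t : ℝ, 0 < t →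
        (∀ m : ℕ, Tendsto (fun n => zrpLaw g (PMF.pure (-(Pi.single i0 1))) (restr η n)
          {ω | m ≤ stateAt ω t 0}) atTop (𝓝 1)) ∧
        ∀ (Ω : Type) [MeasurableSpace Ω] (P : Measure Ω) (Y : ℕ → Ω → ℕ → Conf d × ℝ),
          MonotoneCoupling g (PMF.pure (-(Pi.single i0 1))) η P Y →
          ∀ᵐ w ∂P, limitAt (fun n => Y n w) t 0 = ⊤ := by
  refine ⟨gg i0, rfl, gg_mono i0, gg_tendsto i0, eta i0, finiteDensity i0 hd, ?_⟩
  filter_upwards [law_explosion i0, coupling_explosion i0] with t h1 h2 ht
  exact ⟨h1 ht, h2 ht⟩

end Pool.Agent.Results.MP_773c46_pr.Explosion
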